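import Pool.Agent.Helper84.SQ.GoalsA

/-!
# Separable indefinite quadratic integer programs: integer decomposition (packet IDP)
-/

namespace Pool.Agent.Helper67.SQ

open Pool.Agent.Helper84.SQ

/-- The index type of the rows of the auxiliary system. -/
abbrev Rw (m : ℕ) : Type := (Fin m ⊕ Fin m) ⊕ (Fin m ⊕ Fin m) ⊕ (Unit ⊕ Unit)

/-- The rows. -/
def rowR {m n : ℕ} (W : Matrix (Fin m) (Fin n) ℤ) (i0 : Fin n) : Rw m → Fin n → ℤ
  | .inl (.inl i) => W i
  | .inl (.inr i) => -W i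
  | .inr (.inl (.inl i)) => W i
  | .inr (.inl (.inr i)) => -W i
  | .inr (.inr (.inl _)) => Pi.single i0 1
  | .inr (.inr (.inr _)) => Pi.single i0 (-1)

/-- The bounds. -/
def bdR {m : ℕ} (t p q : Fin m → ℤ) (M s : ℤ) : Rw m → ℤ
  | .inl (.inl i) => q i
  | .inl (.inr i) => -p i
  | .inr (.inl (.inl i)) => t i - (M - 1) * p i
  | .inr (.inl (.inr i)) => -(t i - (M - 1) * q i)
  | .inr (.inr (.inl _)) => s
  | .inr (.inr (.inr _)) => -s

/-- One summand. -/
theorem split (hR : RndStmt) (hT : TurStmt) {m n : ℕ} (W : Matrix (Fin m) (Fin n) ℤ)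
    (hW : W.IsTotallyUnimodular) (i0 : Fin n) (M s : ℤ) (hM : 1 ≤ M) (z : Fin n → ℤ)
    (p q : Fin m → ℤ) (hz : z i0 = s * M) (hp : ∀ i, M * p i ≤ ∑ j, W i j * z j)
    (hq : ∀ i, ∑ j, W i j * z j ≤ M * q i) :
    ∃ y : Fin n → ℤ, y i0 = s ∧ (∀ i, p i ≤ ∑ j, W i j * y j) ∧ (∀ i, ∑ j, W i j * y j ≤ q i) ∧
      (∀ i, (M - 1) * p i ≤ ∑ j, W i j * (z j - y j)) ∧
      ∀ i, ∑ j, W i j * (z j - y j) ≤ (M - 1) * q i := by
  classical
  set e : Fin (Fintype.card (Rw m)) ≃ Rw m := (Fintype.equivFin (Rw m)).symm with he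
  set t : Fin m → ℤ := fun i => ∑ j, W i j * z j with ht
  have hMr : (1 : ℝ) ≤ M := by exact_mod_cast hM
  have hM0 : (0 : ℝ) < M := by linarith
  have hTU : (Matrix.of fun i => rowR W i0 (e i) :
      Matrix (Fin (Fintype.card (Rw m))) (Fin n) ℤ).IsTotallyUnimodular := by
    apply hT m n _ W _ hW
    intro i
    have hrow : (Matrix.of fun i => rowR W i0 (e i) :
      Matrix (Fin (Fintype.card (Rw m))) (Fin n) ℤ) i = rowR W i0 (e i) := rfl
    rw [hrow]
    rcases e i with (i' | i') | ((i' | i') | (u | u))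
    · exact Or.inl ⟨i', rfl⟩
    · exact Or.inr (Or.inl ⟨i', rfl⟩)
    · exact Or.inl ⟨i', rfl⟩
    · exact Or.inr (Or.inl ⟨i', rfl⟩)
    · exact Or.inr (Or.inr (Or.inl ⟨i0, rfl⟩))
    · exact Or.inr (Or.inr (Or.inr (Or.inl ⟨i0, rfl⟩)))
  have hreal : ∀ r : Rw m, ∑ j, ((rowR W i0 r j : ℤ) : ℝ) * ((z j : ℝ) / M) ≤
      (bdR t p q M s r : ℤ) + 0 := by
    intro r
    have hWz : ∀ i, ∑ j, ((W i j : ℤ) : ℝ) * ((z j : ℝ) / M) = (t i : ℝ) / M := by
      intro i
      rw [ht]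
      push_cast
      rw [Finset.sum_div]
      exact Finset.sum_congr rfl fun j _ => by rw [mul_div_assoc]
    have hWz' : ∀ i, ∑ j, (((-W i) j : ℤ) : ℝ) * ((z j : ℝ) / M) = -((t i : ℝ) / M) := by
      intro i
      rw [← hWz, ← Finset.sum_neg_distrib]
      exact Finset.sum_congr rfl fun j _ => by rw [Pi.neg_apply]; push_cast; ring
    have hpr : ∀ i, (M : ℝ) * p i ≤ t i := fun i => by exact_mod_cast hp i
    have hqr : ∀ i, (t i : ℝ) ≤ M * q i := fun i => by exact_mod_cast hq i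
    have hzi : (z i0 : ℝ) / M = s := by
      rw [hz]
      push_cast
      field_simp
    rw [add_zero]
    rcases r with (i | i) | ((i | i) | (u | u))
    · show ∑ j, ((W i j : ℤ) : ℝ) * ((z j : ℝ) / M) ≤ ((q i : ℤ) : ℝ)
      rw [hWz, div_le_iff₀ hM0]
      linarith [hqr i]
    · show ∑ j, (((-W i) j : ℤ) : ℝ) * ((z j : ℝ) / M) ≤ ((-p i : ℤ) : ℝ)
      rw [hWz']
      push_cast
      rw [neg_le_neg_iff, le_div_iff₀ hM0]
      linarith [hpr i]
    · show ∑ j, ((W i j : ℤ) : ℝ) * ((z j : ℝ) / M) ≤ ((t i - (M - 1) * p i : ℤ) : ℝ)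
      rw [hWz, div_le_iff₀ hM0]
      push_cast
      nlinarith [hpr i]
    · show ∑ j, (((-W i) j : ℤ) : ℝ) * ((z j : ℝ) / M) ≤ ((-(t i - (M - 1) * q i) : ℤ) : ℝ)
      rw [hWz']
      push_cast
      rw [neg_le_neg_iff, le_div_iff₀ hM0]
      nlinarith [hqr i]
    · show ∑ j, (((Pi.single i0 1 : Fin n → ℤ) j : ℤ) : ℝ) * ((z j : ℝ) / M) ≤ ((s : ℤ) : ℝ)
      rw [Finset.sum_eq_single i0]
      · simp [hzi]
      · intro j _ hj
        simp [hj]
      · intro h
        exact absurd (Finset.mem_univ _) h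
    · show ∑ j, (((Pi.single i0 (-1) : Fin n → ℤ) j : ℤ) : ℝ) * ((z j : ℝ) / M) ≤
        ((-s : ℤ) : ℝ)
      rw [Finset.sum_eq_single i0]
      · simp [hzi]
      · intro j _ hj
        simp [hj]
      · intro h
        exact absurd (Finset.mem_univ _) h
  obtain ⟨y, hy, -⟩ := hR _ n (Matrix.of fun i => rowR W i0 (e i))
    (fun i => bdR t p q M s (e i)) (fun _ => 0) (fun j => (z j : ℝ) / M) 0 hTU le_rfl
    (by norm_num) (fun i => hreal (e i))
  have hyr : ∀ r : Rw m, ∑ j, rowR W i0 r j * y j ≤ bdR t p q M s r := by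
    intro r
    have h := hy (e.symm r)
    simp only [Matrix.of_apply, Equiv.apply_symm_apply] at h
    exact h
  have h1 : ∀ i, ∑ j, W i j * y j ≤ q i := fun i => hyr (.inl (.inl i))
  have hneg : ∀ i, ∑ j, (-W i) j * y j = -∑ j, W i j * y j := by
    intro i
    rw [← Finset.sum_neg_distrib]
    exact Finset.sum_congr rfl fun j _ => by rw [Pi.neg_apply]; ring
  have h2 : ∀ i, p i ≤ ∑ j, W i j * y j := by
    intro i
    have h : ∑ j, (-W i) j * y j ≤ -p i := hyr (.inl (.inr i))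
    rw [hneg] at h
    linarith
  have h3 : ∀ i, ∑ j, W i j * y j ≤ t i - (M - 1) * p i := fun i => hyr (.inr (.inl (.inl i)))
  have h4 : ∀ i, t i - (M - 1) * q i ≤ ∑ j, W i j * y j := by
    intro i
    have h : ∑ j, (-W i) j * y j ≤ -(t i - (M - 1) * q i) := hyr (.inr (.inl (.inr i)))
    rw [hneg] at h
    linarith
  have h5 : y i0 ≤ s := by
    have h : ∑ j, (Pi.single i0 1 : Fin n → ℤ) j * y j ≤ s := hyr (.inr (.inr (.inl ())))
    rw [Finset.sum_eq_single i0] at h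
    · simpa using h
    · intro j _ hj
      simp [hj]
    · intro h
      exact absurd (Finset.mem_univ _) h
  have h6 : s ≤ y i0 := by
    have h : ∑ j, (Pi.single i0 (-1) : Fin n → ℤ) j * y j ≤ -s := hyr (.inr (.inr (.inr ())))
    rw [Finset.sum_eq_single i0] at h
    · simpa using h
    · intro j _ hj
      simp [hj]
    · intro h
      exact absurd (Finset.mem_univ _) h
  have hsub : ∀ i, ∑ j, W i j * (z j - y j) = t i - ∑ j, W i j * y j := by
    intro i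
    rw [ht, ← Finset.sum_sub_distrib]
    exact Finset.sum_congr rfl fun j _ => by ring
  refine ⟨y, le_antisymm h5 h6, h2, h1, fun i => ?_, fun i => ?_⟩
  · rw [hsub]
    linarith [h3 i]
  · rw [hsub]
    linarith [h4 i]

/-- The decomposition. -/
theorem dec (hR : RndStmt) (hT : TurStmt) {m n : ℕ} (W : Matrix (Fin m) (Fin n) ℤ)
    (hW : W.IsTotallyUnimodular) (i0 : Fin n) (s : ℤ) (p q : Fin m → ℤ) (N : ℕ) :
    ∀ z : Fin n → ℤ, z i0 = s * ((N + 1 : ℕ) : ℤ) →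
      (∀ i, ((N + 1 : ℕ) : ℤ) * p i ≤ ∑ j, W i j * z j) →
      (∀ i, ∑ j, W i j * z j ≤ ((N + 1 : ℕ) : ℤ) * q i) →
      ∃ g : Fin (N + 1) → Fin n → ℤ, (∀ k, g k i0 = s) ∧ (∀ j, ∑ k, g k j = z j) ∧
        ∀ k i, p i ≤ ∑ j, W i j * g k j ∧ ∑ j, W i j * g k j ≤ q i := by
  induction N with
  | zero =>
    intro z hz hp hq
    refine ⟨fun _ => z, fun _ => by simpa using hz, fun j => by simp, fun _ i => ?_⟩
    have h1 := hp i
    have h2 := hq i
    simp only [Nat.cast_add, Nat.cast_one, Nat.cast_zero, zero_add, one_mul] at h1 h2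
    exact ⟨h1, h2⟩
  | succ N ih =>
    intro z hz hp hq
    obtain ⟨y, hy, hy1, hy2, hy3, hy4⟩ := split hR hT W hW i0 ((N + 1 + 1 : ℕ) : ℤ) s
      (by push_cast; omega) z p q hz hp hq
    have hM : (((N + 1 + 1 : ℕ) : ℤ) - 1) = ((N + 1 : ℕ) : ℤ) := by push_cast; ring
    rw [hM] at hy3 hy4
    obtain ⟨g, hg, hg1, hg2⟩ := ih (fun j => z j - y j) (by
      show z i0 - y i0 = _
      rw [hz, hy]
      push_cast
      ring) hy3 hy4
    refine ⟨Fin.cons y g, ?_, ?_, ?_⟩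
    · intro k
      refine Fin.cases ?_ (fun k => ?_) k
      · rw [Fin.cons_zero]
        exact hy
      · rw [Fin.cons_succ]
        exact hg k
    · intro j
      rw [Fin.sum_univ_succ]
      simp only [Fin.cons_zero, Fin.cons_succ]
      rw [hg1]
      ring
    · intro k i
      refine Fin.cases ?_ (fun k => ?_) k
      · rw [Fin.cons_zero]
        exact ⟨hy1 i, hy2 i⟩
      · rw [Fin.cons_succ]
        exact hg2 k i

theorem idp (hR : RndStmt) (hT : TurStmt) : IdpStmt := by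
  intro m n N W w a b i0 s hW hN _ ha hb hab
  obtain ⟨N, rfl⟩ : ∃ N', N = N' + 1 := ⟨N - 1, by omega⟩
  set t : Fin m → ℤ := fun i => ∑ j, W i j * (b j - a j) with ht
  have hNpos : (0 : ℤ) < ((N + 1 : ℕ) : ℤ) := by push_cast; omega
  obtain ⟨g, hg, hg1, hg2⟩ := dec hR hT W hW i0 s (fun i => t i / ((N + 1 : ℕ) : ℤ))
    (fun i => -((-t i) / ((N + 1 : ℕ) : ℤ))) N (fun j => b j - a j)
    (by
      show b i0 - a i0 = _
      rw [hab]
      ring)
    (fun i => Int.mul_ediv_self_le hNpos.ne')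
    (fun i => by
      have h := Int.mul_ediv_self_le (x := -t i) (k := ((N + 1 : ℕ) : ℤ)) hNpos.ne'
      show t i ≤ ((N + 1 : ℕ) : ℤ) * -((-t i) / ((N + 1 : ℕ) : ℤ))
      linarith)
  refine ⟨g, hg, hg1, ?_⟩
  intro S i
  show ∑ j, W i j * (a j + ∑ k ∈ S, g k j) ≤ w i
  have h1 : ∑ j, W i j * (a j + ∑ k ∈ S, g k j) =
      ∑ j, W i j * a j + ∑ k ∈ S, ∑ j, W i j * g k j := by
    rw [Finset.sum_comm, ← Finset.sum_add_distrib]
    exact Finset.sum_congr rfl fun j _ => by rw [mul_add, Finset.mul_sum]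
  rw [h1]
  rcases le_total 0 (t i) with h0 | h0
  · have h2 : ∀ k, 0 ≤ ∑ j, W i j * g k j := fun k =>
      (Int.ediv_nonneg h0 hNpos.le).trans (hg2 k i).1
    have h3 : ∑ k ∈ S, ∑ j, W i j * g k j ≤ ∑ k, ∑ j, W i j * g k j :=
      Finset.sum_le_sum_of_subset_of_nonneg (Finset.subset_univ S) fun k _ _ => h2 k
    have h4 : ∑ k, ∑ j, W i j * g k j = t i := by
      rw [Finset.sum_comm, ht]
      exact Finset.sum_congr rfl fun j _ => by rw [← Finset.mul_sum, hg1]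
    have h5 : ∑ j, W i j * b j = ∑ j, W i j * a j + t i := by
      rw [ht, ← Finset.sum_add_distrib]
      exact Finset.sum_congr rfl fun j _ => by ring
    have h6 : ∑ j, W i j * b j ≤ w i := hb i
    linarith
  · have h2 : ∀ k, ∑ j, W i j * g k j ≤ 0 := by
      intro k
      have h3 := (hg2 k i).2
      have h4 : 0 ≤ (-t i) / ((N + 1 : ℕ) : ℤ) := Int.ediv_nonneg (by linarith) hNpos.le
      linarith
    have h3 : ∑ k ∈ S, ∑ j, W i j * g k j ≤ 0 := Finset.sum_nonpos fun k _ => h2 k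
    have h6 : ∑ j, W i j * a j ≤ w i := ha i
    linarith

end Pool.Agent.Helper67.SQ
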